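import Pool.Agent.Helper35.Stx.Sieve

/-!
# MP_65a63f_X, X2: collisions in one time slice

The kernel `∏_l Th_d (y_l)` is positive definite, so the shifted pairs are bounded by the pairs in one time slice.
-/

set_option autoImplicit false

namespace Stx

open Finset Stz

open scoped ComplexConjugate

theorem Pd_nonneg (A r N d : ℕ) [NeZero A] (hN : 1 ≤ N) (hd : 1 ≤ d) (hdA : d ∣ A)
    (y : Fin r → ZMod A) : 0 ≤ Pd A r N d y := by
  unfold Pd
  exact prod_nonneg fun l _ => div_nonneg (Th_nonneg A N d hd hN hdA _) (Nat.cast_nonneg _)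

namespace CollAux

/-- `Th` as a complex sum -/
theorem Th_cast (A N d : ℕ) [NeZero A] (u : ZMod A) :
    ((Th A N d u : ℝ) : ℂ) = ∑ j ∈ Icc (-(2 * N : ℤ)) (2 * N),
      (((d : ℝ) * wt N (d * j) : ℝ) : ℂ) * ps A (((d * j : ℤ) : ZMod A) * u) := by
  have h1 : conj (∑ j ∈ Icc (-(2 * N : ℤ)) (2 * N),
      (((d : ℝ) * wt N (d * j) : ℝ) : ℂ) * ps A (((d * j : ℤ) : ZMod A) * u)) =
      ∑ j ∈ Icc (-(2 * N : ℤ)) (2 * N),
      (((d : ℝ) * wt N (d * j) : ℝ) : ℂ) * ps A (((d * j : ℤ) : ZMod A) * u) := by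
    rw [map_sum]
    refine sum_nbij' (fun j => -j) (fun j => -j) ?_ ?_ ?_ ?_ ?_
    · intro j hj
      rw [mem_Icc] at hj ⊢
      omega
    · intro j hj
      rw [mem_Icc] at hj ⊢
      omega
    · intro j _
      exact neg_neg j
    · intro j _
      exact neg_neg j
    · intro j _
      have h2 : (d : ℤ) * -j = -((d : ℤ) * j) := by ring
      rw [map_mul, Complex.conj_ofReal, ← ps_neg, h2, wt_neg]
      push_cast
      ring_nf
  rw [← Complex.conj_eq_iff_re.1 h1]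
  congr 1
  rw [Complex.re_sum]
  unfold Th
  rw [mul_sum]
  refine sum_congr rfl fun j _ => ?_
  rw [Complex.re_ofReal_mul]
  ring

/-- the kernel is positive definite -/
theorem psd (A r N d : ℕ) [NeZero A] (u : (Fin r → ZMod A) → ℝ) :
    0 ≤ ∑ y, ∑ y', u y * u y' * ∏ l, Th A N d (y' l - y l) := by
  have h1 : ((∑ y, ∑ y', u y * u y' * ∏ l, Th A N d (y' l - y l) : ℝ) : ℂ) =
      ((∑ j ∈ Fintype.piFinset fun _ : Fin r => Icc (-(2 * N : ℤ)) (2 * N),
        (∏ l, ((d : ℝ) * wt N (d * j l))) *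
          ‖∑ y, (u y : ℂ) * ps A (dt (fun l => (d : ℤ) * j l) y)‖ ^ 2 : ℝ) : ℂ) := by
    have h2 : ∀ y y' : Fin r → ZMod A, ((∏ l, Th A N d (y' l - y l) : ℝ) : ℂ) =
        ∑ j ∈ Fintype.piFinset fun _ : Fin r => Icc (-(2 * N : ℤ)) (2 * N),
          ((∏ l, ((d : ℝ) * wt N (d * j l)) : ℝ) : ℂ) *
            (ps A (dt (fun l => (d : ℤ) * j l) y') * conj (ps A (dt (fun l => (d : ℤ) * j l) y))) := by
      intro y y'
      rw [Complex.ofReal_prod]
      simp only [Th_cast]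
      rw [prod_univ_sum]
      refine sum_congr rfl fun j _ => ?_
      rw [prod_mul_distrib, Complex.ofReal_prod, ps_mul_conj, ← ps_sum]
      congr 2
      unfold dt
      rw [← sum_sub_distrib]
      exact sum_congr rfl fun l _ => by ring
    have h3 : ∀ j : Fin r → ℤ, ((‖∑ y, (u y : ℂ) * ps A (dt (fun l => (d : ℤ) * j l) y)‖ ^ 2 : ℝ) : ℂ) =
        ∑ y, ∑ y', (u y : ℂ) * (u y' : ℂ) *
          (ps A (dt (fun l => (d : ℤ) * j l) y') * conj (ps A (dt (fun l => (d : ℤ) * j l) y))) := by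
      intro j
      rw [sq_norm_eq, map_sum, sum_mul_sum, sum_comm]
      refine sum_congr rfl fun y _ => sum_congr rfl fun y' _ => ?_
      rw [map_mul, Complex.conj_ofReal]
      ring
    simp only [Complex.ofReal_sum, Complex.ofReal_mul (_ * _) _, Complex.ofReal_mul (∏ l, _) _, h2, h3]
    simp only [mul_sum]
    have h5 : ∀ y : Fin r → ZMod A, ∑ y' : Fin r → ZMod A,
        ∑ j ∈ Fintype.piFinset fun _ : Fin r => Icc (-(2 * N : ℤ)) (2 * N),
          ((u y * u y' : ℝ) : ℂ) * (((∏ l, ((d : ℝ) * wt N (d * j l)) : ℝ) : ℂ) *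
            (ps A (dt (fun l => (d : ℤ) * j l) y') * conj (ps A (dt (fun l => (d : ℤ) * j l) y)))) =
        ∑ j ∈ Fintype.piFinset fun _ : Fin r => Icc (-(2 * N : ℤ)) (2 * N), ∑ y' : Fin r → ZMod A,
          ((u y * u y' : ℝ) : ℂ) * (((∏ l, ((d : ℝ) * wt N (d * j l)) : ℝ) : ℂ) *
            (ps A (dt (fun l => (d : ℤ) * j l) y') * conj (ps A (dt (fun l => (d : ℤ) * j l) y)))) :=
      fun y => sum_comm
    rw [sum_congr rfl fun y _ => h5 y, sum_comm]
    refine sum_congr rfl fun j _ => sum_congr rfl fun y _ => sum_congr rfl fun y' _ => ?_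
    rw [Complex.ofReal_mul]
    ring
  have h4 : ∑ y, ∑ y', u y * u y' * ∏ l, Th A N d (y' l - y l) =
      ∑ j ∈ Fintype.piFinset fun _ : Fin r => Icc (-(2 * N : ℤ)) (2 * N),
        (∏ l, ((d : ℝ) * wt N (d * j l))) *
          ‖∑ y, (u y : ℂ) * ps A (dt (fun l => (d : ℤ) * j l) y)‖ ^ 2 := by
    exact_mod_cast h1
  rw [h4]
  refine sum_nonneg fun j _ => mul_nonneg (prod_nonneg fun l _ => ?_) (sq_nonneg _)
  exact mul_nonneg (Nat.cast_nonneg _) (wt_nonneg _ _)

/-- the form of the kernel -/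
noncomputable def kf (A r N d : ℕ) [NeZero A] (u v : (Fin r → ZMod A) → ℝ) : ℝ :=
  ∑ y, ∑ y', u y * v y' * ∏ l, Th A N d (y' l - y l)

theorem kf_symm (A r N d : ℕ) [NeZero A] (u v : (Fin r → ZMod A) → ℝ) :
    kf A r N d u v = kf A r N d v u := by
  unfold kf
  rw [sum_comm]
  refine sum_congr rfl fun y _ => sum_congr rfl fun y' _ => ?_
  have : ∏ l, Th A N d (y l - y' l) = ∏ l, Th A N d (y' l - y l) := by
    refine prod_congr rfl fun l _ => ?_
    rw [← Th_neg, neg_sub]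
  rw [this]
  ring

theorem kf_le (A r N d : ℕ) [NeZero A] (u v : (Fin r → ZMod A) → ℝ) :
    kf A r N d u v ≤ (kf A r N d u u + kf A r N d v v) / 2 := by
  have h1 : 0 ≤ kf A r N d (fun y => u y - v y) (fun y => u y - v y) :=
    psd A r N d fun y => u y - v y
  have h2 : kf A r N d (fun y => u y - v y) (fun y => u y - v y) =
      kf A r N d u u - kf A r N d u v - kf A r N d v u + kf A r N d v v := by
    unfold kf
    rw [← sum_sub_distrib, ← sum_sub_distrib, ← sum_add_distrib]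
    refine sum_congr rfl fun y _ => ?_
    rw [← sum_sub_distrib, ← sum_sub_distrib, ← sum_add_distrib]
    refine sum_congr rfl fun y' _ => ?_
    ring
  rw [h2, kf_symm A r N d v u] at h1
  linarith

theorem kf_mono (A r N d : ℕ) [NeZero A] (hN : 1 ≤ N) (hd : 1 ≤ d) (hdA : d ∣ A)
    (u v : (Fin r → ZMod A) → ℝ) (hu : ∀ y, 0 ≤ u y) (huv : ∀ y, u y ≤ v y) :
    kf A r N d u u ≤ kf A r N d v v := by
  unfold kf
  refine sum_le_sum fun y _ => sum_le_sum fun y' _ => ?_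
  refine mul_le_mul_of_nonneg_right ?_ (prod_nonneg fun l _ => Th_nonneg A N d hd hN hdA _)
  exact mul_le_mul (huv y) (huv y') (hu y') ((hu y).trans (huv y))

/-- the form on the indicator of a time slice -/
theorem kf_sec (A r N d : ℕ) [NeZero A] (hd : 1 ≤ d) (W : Finset (ZMod A × (Fin r → ZMod A)))
    (z : ZMod A) (v : (Fin r → ZMod A) → ℝ) (hv : ∀ y, v y = if y ∈ sec A r W z then 1 else 0) :
    kf A r N d v v = (d : ℝ) ^ r * ∑ y ∈ sec A r W z, ∑ y' ∈ sec A r W z, Pd A r N d (y' - y) := by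
  have hd0 : (d : ℝ) ≠ 0 := by
    have : (1 : ℝ) ≤ d := by exact_mod_cast hd
    positivity
  have h1 : ∀ y y' : Fin r → ZMod A, ∏ l, Th A N d (y' l - y l) = (d : ℝ) ^ r * Pd A r N d (y' - y) := by
    intro y y'
    unfold Pd
    rw [prod_div_distrib, prod_const, card_univ, Fintype.card_fin]
    simp only [Pi.sub_apply]
    field_simp
  unfold kf
  simp only [h1, hv]
  rw [mul_sum, ← sum_subset (subset_univ (sec A r W z))]
  · refine sum_congr rfl fun y hy => ?_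
    rw [mul_sum, ← sum_subset (subset_univ (sec A r W z))]
    · refine sum_congr rfl fun y' hy' => ?_
      rw [if_pos hy, if_pos hy']
      ring
    · intro y' _ hy'
      rw [if_neg hy', mul_zero, zero_mul]
  · intro y _ hy
    refine sum_eq_zero fun y' _ => ?_
    rw [if_neg hy, zero_mul, zero_mul]

/-- shifted pairs are bounded by the pairs in one slice -/
theorem shift_le (A r N d : ℕ) [NeZero A] (hN : 1 ≤ N) (hd : 1 ≤ d) (hdA : d ∣ A)
    (W : Finset (ZMod A × (Fin r → ZMod A))) (f : ZMod A → (Fin r → ZMod A) → ℂ)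
    (hf : ∀ z y, ‖f z y‖ ≤ 1) (hfW : ∀ z y, (z, y) ∉ W → f z y = 0) (s : ZMod A) :
    (A : ℝ)⁻¹ * ∑ z : ZMod A, ((A : ℝ)⁻¹) ^ (2 * r) * ∑ y : Fin r → ZMod A, ∑ y' : Fin r → ZMod A,
      ‖f z y‖ * ‖f (z + s) y'‖ * ∏ l, Th A N d (y' l - y l) ≤
      (d : ℝ) ^ r * Coll A r N d W := by
  classical
  have hA : (0 : ℝ) < A := by
    have : 0 < A := Nat.pos_of_ne_zero (NeZero.ne A)
    exact_mod_cast this
  have h1 : ∀ z : ZMod A, ∑ y : Fin r → ZMod A, ∑ y' : Fin r → ZMod A,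
      ‖f z y‖ * ‖f (z + s) y'‖ * ∏ l, Th A N d (y' l - y l) =
      kf A r N d (fun y => ‖f z y‖) (fun y => ‖f (z + s) y‖) := fun z => rfl
  have h2 : ∀ z : ZMod A, kf A r N d (fun y => ‖f z y‖) (fun y => ‖f z y‖) ≤
      (d : ℝ) ^ r * ∑ y ∈ sec A r W z, ∑ y' ∈ sec A r W z, Pd A r N d (y' - y) := by
    intro z
    rw [← kf_sec A r N d hd W z (fun y => if y ∈ sec A r W z then 1 else 0) fun y => rfl]
    refine kf_mono A r N d hN hd hdA _ _ (fun y => norm_nonneg _) fun y => ?_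
    split_ifs with hy
    · exact hf z y
    · have : (z, y) ∉ W := by
        intro h
        apply hy
        unfold sec
        simp only [mem_filter, mem_univ, true_and]
        exact h
      rw [hfW z y this, norm_zero]
  set T : ZMod A → ℝ := fun z =>
    (d : ℝ) ^ r * ∑ y ∈ sec A r W z, ∑ y' ∈ sec A r W z, Pd A r N d (y' - y) with hT
  have h3 : ∑ z : ZMod A, kf A r N d (fun y => ‖f z y‖) (fun y => ‖f (z + s) y‖) ≤ ∑ z, T z := by
    calc ∑ z : ZMod A, kf A r N d (fun y => ‖f z y‖) (fun y => ‖f (z + s) y‖)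
        ≤ ∑ z : ZMod A, (T z + T (z + s)) / 2 := by
          refine sum_le_sum fun z _ => (kf_le A r N d _ _).trans ?_
          have := h2 z
          have := h2 (z + s)
          simp only [hT]
          linarith
      _ = (∑ z : ZMod A, T z + ∑ z : ZMod A, T (z + s)) / 2 := by
          rw [← sum_add_distrib, sum_div]
      _ = ∑ z, T z := by
          have : ∑ z : ZMod A, T (z + s) = ∑ z : ZMod A, T z := Equiv.sum_comp (Equiv.addRight s) T
          rw [this]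
          ring
  have h4 : (d : ℝ) ^ r * Coll A r N d W = (A : ℝ)⁻¹ * (((A : ℝ)⁻¹) ^ (2 * r) * ∑ z, T z) := by
    unfold Coll
    simp only [hT]
    rw [← mul_sum, ← mul_sum]
    ring
  rw [h4]
  simp only [h1]
  rw [← mul_sum]
  exact mul_le_mul_of_nonneg_left (mul_le_mul_of_nonneg_left h3 (by positivity)) (by positivity)

theorem Coll_nonneg (A r N d : ℕ) [NeZero A] (hN : 1 ≤ N) (hd : 1 ≤ d) (hdA : d ∣ A)
    (W : Finset (ZMod A × (Fin r → ZMod A))) : 0 ≤ Coll A r N d W := by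
  unfold Coll
  refine mul_nonneg (by positivity) (sum_nonneg fun z _ => mul_nonneg (by positivity) ?_)
  exact sum_nonneg fun y _ => sum_nonneg fun y' _ => Pd_nonneg A r N d hN hd hdA _

end CollAux

open CollAux

theorem coll (A r N : ℕ) [NeZero A] (hN : 1 ≤ N) (hNA : 4 * N < A) (I : Finset ℕ)
    (hI : ∀ n ∈ I, 1 ≤ n ∧ n ^ 2 < A)
    (Q : Finset ℕ) (hQ : ∀ q ∈ Q, q.Prime ∧ q ≠ 2 ∧ q ∣ A) (hQ0 : Q.Nonempty)
    (hQI : ∀ n ∈ I, 2 * (Q.filter fun q => q ∣ n).card ≤ Q.card)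
    (W : Finset (ZMod A × (Fin r → ZMod A))) (f : ZMod A → (Fin r → ZMod A) → ℂ)
    (hf : ∀ z y, ‖f z y‖ ≤ 1) (hfW : ∀ z y, (z, y) ∉ W → f z y = 0) :
    En A r I N f ≤ 2 ^ (r + 2) / Q.card * mu A r W
      + 4 / (Q.card : ℝ) ^ 2 * ∑ p ∈ Q.offDiag,
        (Real.sqrt (p.1 * p.2)) ^ (r + 1) * Coll A r N (p.1 * p.2) W := by
  classical
  have hA : (0 : ℝ) < A := by
    have : 0 < A := Nat.pos_of_ne_zero (NeZero.ne A)
    exact_mod_cast this
  refine (sieve A r N hN hNA I hI Q hQ hQ0 hQI f).trans (add_le_add ?_ ?_)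
  · refine mul_le_mul_of_nonneg_left ?_ (by positivity)
    have h1 : ∑ z : ZMod A, ∑ y : Fin r → ZMod A, ‖f z y‖ ^ 2 ≤ W.card := by
      have h2 : ∑ z : ZMod A, ∑ y : Fin r → ZMod A, ‖f z y‖ ^ 2 =
          ∑ w : ZMod A × (Fin r → ZMod A), ‖f w.1 w.2‖ ^ 2 := by
        rw [← univ_product_univ, sum_product]
      rw [h2, ← sum_subset (subset_univ W)]
      · calc ∑ w ∈ W, ‖f w.1 w.2‖ ^ 2 ≤ ∑ w ∈ W, (1 : ℝ) := by
              refine sum_le_sum fun w _ => ?_
              exact pow_le_one₀ (norm_nonneg _) (hf w.1 w.2)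
          _ = W.card := by simp
      · intro w _ hw
        rw [hfW w.1 w.2 hw, norm_zero]
        norm_num
    calc ((A : ℝ)⁻¹) ^ (r + 1) * ∑ z, ∑ y, ‖f z y‖ ^ 2 ≤ ((A : ℝ)⁻¹) ^ (r + 1) * W.card :=
          mul_le_mul_of_nonneg_left h1 (by positivity)
      _ = mu A r W := by
          unfold mu
          rw [inv_pow, div_eq_inv_mul]
  · refine mul_le_mul_of_nonneg_left ?_ (by positivity)
    refine sum_le_sum fun p hp => ?_
    rw [mem_offDiag] at hp
    obtain ⟨hp1, hp2, hne⟩ := hp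
    obtain ⟨hq, -, hqA⟩ := hQ p.1 hp1
    obtain ⟨hq', -, hqA'⟩ := hQ p.2 hp2
    have hd : 1 ≤ p.1 * p.2 := Nat.mul_pos hq.pos hq'.pos
    have hdA : p.1 * p.2 ∣ A := ((Nat.coprime_primes hq hq').2 hne).mul_dvd_of_dvd_of_dvd hqA hqA'
    have hs : (0 : ℝ) < Real.sqrt (p.1 * p.2) := by
      apply Real.sqrt_pos.2
      have h1 : (0 : ℝ) < p.1 := by exact_mod_cast hq.pos
      have h2 : (0 : ℝ) < p.2 := by exact_mod_cast hq'.pos
      positivity
    have hss : Real.sqrt (p.1 * p.2) ^ 2 = ((p.1 * p.2 : ℕ) : ℝ) := by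
      rw [Real.sq_sqrt (by positivity)]
      push_cast
      ring
    calc ((Real.sqrt (p.1 * p.2))⁻¹) ^ (r + 1) *
        ∑ a ∈ range p.1, ∑ a' ∈ range p.2, (A : ℝ)⁻¹ * ∑ z : ZMod A, ((A : ℝ)⁻¹) ^ (2 * r) *
          ∑ y : Fin r → ZMod A, ∑ y' : Fin r → ZMod A,
            ‖f z y‖ * ‖f (z + sh A p.1 p.2 a a') y'‖ * ∏ l, Th A N (p.1 * p.2) (y' l - y l)
        ≤ ((Real.sqrt (p.1 * p.2))⁻¹) ^ (r + 1) *
          ∑ a ∈ range p.1, ∑ a' ∈ range p.2,
            ((p.1 * p.2 : ℕ) : ℝ) ^ r * Coll A r N (p.1 * p.2) W := by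
          refine mul_le_mul_of_nonneg_left ?_ (by positivity)
          exact sum_le_sum fun a _ => sum_le_sum fun a' _ =>
            shift_le A r N (p.1 * p.2) hN hd hdA W f hf hfW _
      _ = (Real.sqrt (p.1 * p.2)) ^ (r + 1) * Coll A r N (p.1 * p.2) W := by
          rw [sum_const, sum_const, card_range, card_range, smul_smul, nsmul_eq_mul, ← hss]
          rw [inv_pow]
          field_simp
          ring

end Stx
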